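import Pool.Agent.Helper50.FdT.Sub
import Pool.Agent.Results.MP_466853_co.FonDerFlaassBlowUps

/-!
# `K_4^3`-free subgraphs of Fon-der-Flaass 3-graphs

For a digraph `R` consider the 3-graph of all triples in which every vertex is joined by an arc (in some
direction) to at least one of the other two and no vertex sends arcs to both others. If `R` is an oriented
graph without induced oriented 4-cycle, this 3-graph is `K_4^3`-free (Fon-der-Flaass), and then it has at
most `5/54 n^3` edges (starting library, result `FonDerFlaass` of `MP_f1799f_co`). Here `R` is an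
arbitrary digraph: its induced oriented 4-cycles give copies of `K_4^3`, and it is shown that every
`K_4^3`-free subgraph of the 3-graph of `R` has at most `5/54 n^3` edges. So Turán's `(3,4)`-conjecture
holds for all `K_4^3`-free 3-graphs `G` for which some digraph `R` on the vertices of `G` has the property
that in every edge of `G` no vertex is isolated and no vertex dominates the two others. The bound is
proved for the Lagrangian of `G`.

Proof: one may assume that `R` is an oriented graph (delete one arc of every 2-cycle). On every induced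
oriented 4-cycle of `R` one of the four triples, which are induced paths, is missing in `G`. So the bound
follows from the weighted theorem `main_marked`: `T R w + Mk K w ≥ 4/9` for every oriented graph with
vertex weights `w` and every set `K` of induced paths which contains a triple of every induced oriented
4-cycle.
-/

set_option autoImplicit false

open Finset
open scoped Classical

namespace Pool.Agent.Results.MP_466853_co.FonDerFlaassSubgraphs

/-- The 3-graph `G` has no four vertices spanning all four triples. -/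
def K43Free {n : ℕ} (G : Finset (Finset (Fin n))) : Prop :=
  ∀ S : Finset (Fin n), S.card = 4 → ∃ e ⊆ S, e.card = 3 ∧ e ∉ G

/-- The 3-graph of the digraph `R` (Fon-der-Flaass construction): all triples in which every vertex is
joined by an arc, in some direction, to at least one of the other two, and no vertex sends arcs to
both others. -/
noncomputable def construction {n : ℕ} (R : Fin n → Fin n → Prop) : Finset (Finset (Fin n)) :=
  (Finset.univ.powersetCard 3).filter fun e : Finset (Fin n) =>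
    ∀ x ∈ e, (∃ y ∈ e, y ≠ x ∧ (R x y ∨ R y x)) ∧ ∃ y ∈ e, y ≠ x ∧ ¬ R x y

open Pool.Agent.Helper50.FdT

/-- one arc of every 2-cycle -/
def ori {n : ℕ} (R : Fin n → Fin n → Prop) (x y : Fin n) : Prop := x ≠ y ∧ R x y ∧ (¬ R y x ∨ x < y)

theorem ori_oriented {n : ℕ} (R : Fin n → Fin n → Prop) : Pool.Agent.H122R2.FdF.Oriented (ori R) := by
  rintro x y ⟨h1, h2, h3⟩ ⟨-, h5, h6⟩
  have q1 : x < y := by tauto
  have q2 : y < x := by tauto
  exact absurd q1 (not_lt.mpr q2.le)

theorem sub_ori {n : ℕ} (R : Fin n → Fin n → Prop) : construction R ⊆ construction (ori R) := by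
  intro e he
  unfold construction at he ⊢
  rw [mem_filter] at he ⊢
  refine ⟨he.1, fun x hx => ?_⟩
  obtain ⟨⟨y, hy, hyx, h1⟩, z, hz, hzx, h2⟩ := he.2 x hx
  refine ⟨⟨y, hy, hyx, ?_⟩, z, hz, hzx, fun h => h2 h.2.1⟩
  have hlt : x < y ∨ y < x := lt_or_gt_of_ne (Ne.symm hyx)
  have hxy : x ≠ y := Ne.symm hyx
  by_cases a1 : R x y <;> by_cases a2 : R y x
  · rcases hlt with h | h
    · exact Or.inl ⟨hxy, a1, Or.inr h⟩
    · exact Or.inr ⟨hyx, a2, Or.inr h⟩
  · exact Or.inl ⟨hxy, a1, Or.inl a2⟩
  · exact Or.inr ⟨hyx, a2, Or.inl a1⟩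
  · exact absurd h1 (by tauto)

theorem choose_three (n : ℕ) :
    ((n.choose 3 : ℕ) : ℝ) = (n : ℝ) ^ 3 / 6 - (n : ℝ) ^ 2 / 2 + (n : ℝ) / 3 :=
  MP_f1799f_co.FonDerFlaass.choose_three n

/-- the bound for the Lagrangian -/
theorem lagr (n : ℕ) (R : Fin n → Fin n → Prop) (G : Finset (Finset (Fin n)))
    (hG : G ⊆ construction R) (hK : K43Free G) (x : Fin n → ℝ) (hx : ∀ v, 0 ≤ x v) :
    ∑ e ∈ G, ∏ v ∈ e, x v ≤ 5 / 54 * (∑ v, x v) ^ 3 :=
  sub_lag (ori R) (ori_oriented R) G
    (fun _ he => (mem_powersetCard.mp (mem_filter.mp (hG he)).1).2)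
    (fun _ _ _ hab hac hbc hm =>
      (FonDerFlaassBlowUps.mem_con (R := ori R) hab hac hbc).mp (sub_ori R (hG hm))) hK x hx

theorem upper (n : ℕ) (R : Fin n → Fin n → Prop) (G : Finset (Finset (Fin n)))
    (hG : G ⊆ construction R) (hK : K43Free G) : (G.card : ℝ) ≤ 5 / 54 * (n : ℝ) ^ 3 := by
  have h := lagr n R G hG hK (fun _ => 1) (fun _ => zero_le_one)
  simpa using h

/-- **Turán's `(3,4)`-conjecture for subgraphs of Fon-der-Flaass 3-graphs.** (1) For every digraph `R`
on `n` vertices, every `K_4^3`-free 3-graph `G` contained in the 3-graph of `R`, and all non-negative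
vertex weights `x`, the sum of the weights of the edges of `G` (products of the vertex weights) is at
most `5/54` times the third power of the total weight. (2) So `G` has at most `5/54 n^3` edges, and
(3) its density is at most `5/9 + o(1)`. (4) The constant `5/9` is attained. -/
theorem result :
    (∀ (n : ℕ) (R : Fin n → Fin n → Prop) (G : Finset (Finset (Fin n))),
      G ⊆ construction R → K43Free G → ∀ x : Fin n → ℝ, (∀ v, 0 ≤ x v) →
        ∑ e ∈ G, ∏ v ∈ e, x v ≤ 5 / 54 * (∑ v, x v) ^ 3) ∧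
    (∀ (n : ℕ) (R : Fin n → Fin n → Prop) (G : Finset (Finset (Fin n))),
      G ⊆ construction R → K43Free G → (G.card : ℝ) ≤ 5 / 54 * (n : ℝ) ^ 3) ∧
    (∀ ε : ℝ, 0 < ε → ∃ N : ℕ, ∀ n : ℕ, N ≤ n → ∀ (R : Fin n → Fin n → Prop)
      (G : Finset (Finset (Fin n))), G ⊆ construction R → K43Free G →
        (G.card : ℝ) ≤ (5 / 9 + ε) * ((n.choose 3 : ℕ) : ℝ)) ∧
    (∀ ε : ℝ, 0 < ε → ∃ N : ℕ, ∀ n : ℕ, N ≤ n → ∃ (R : Fin n → Fin n → Prop)
      (G : Finset (Finset (Fin n))), G ⊆ construction R ∧ K43Free G ∧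
        (5 / 9 - ε) * ((n.choose 3 : ℕ) : ℝ) ≤ (G.card : ℝ)) := by
  refine ⟨lagr, upper, fun ε hε => ?_, fun ε hε => ?_⟩
  · obtain ⟨N, hN⟩ := exists_nat_gt (8 / ε)
    refine ⟨max N 8, fun n hn R G hG hK => ?_⟩
    have hn1 : (N : ℝ) ≤ n := by exact_mod_cast (le_max_left N 8).trans hn
    have hn8 : (8 : ℝ) ≤ n := by exact_mod_cast (le_max_right N 8).trans hn
    have he : 8 ≤ ε * n := by
      have : 8 / ε < n := lt_of_lt_of_le hN hn1
      rw [div_lt_iff₀ hε] at this
      linarith
    have hup := upper n R G hG hK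
    rw [choose_three]
    have h1 : (n : ℝ) ^ 3 / 6 - (n : ℝ) ^ 2 / 2 ≥ (n : ℝ) ^ 3 / 12 := by nlinarith [sq_nonneg (n : ℝ)]
    have h2 : 8 * ((n : ℝ) ^ 2 / 12) ≤ ε * n * ((n : ℝ) ^ 2 / 12) :=
      mul_le_mul_of_nonneg_right he (by positivity)
    have h3 : 0 ≤ ε * ((n : ℝ) / 3) := by positivity
    have h4 : ε * ((n : ℝ) ^ 3 / 12) ≤ ε * ((n : ℝ) ^ 3 / 6 - (n : ℝ) ^ 2 / 2) :=
      mul_le_mul_of_nonneg_left h1 hε.le
    have h5 : (0 : ℝ) ≤ n := by positivity
    nlinarith
  · obtain ⟨N, hN⟩ := FonDerFlaassBlowUps.result.2.2 ε hε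
    refine ⟨N, fun n hn => ?_⟩
    obtain ⟨R, hO, hC, hM, hc⟩ := hN n hn
    exact ⟨R, construction R, Subset.refl _,
      (FonDerFlaassBlowUps.result.2.1 n 7 R hO hC hM).1, hc⟩

end Pool.Agent.Results.MP_466853_co.FonDerFlaassSubgraphs
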