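import Pool.Agent.Helper50.FdT.Cfg
import Pool.Agent.Helper50.FdT.Tur
import Pool.Agent.Results.MP_466853_co.FonDerFlaassBlowUps

/-!
# Turán's `(3,4)`-conjecture for 3-graphs without an induced `K_{1,s,s}^{(3)}`

Let `K_{1,s,s}` be the complete 3-partite 3-graph with classes of `1`, `s` and `s` vertices. It is shown
that for every `s` a `K_4^3`-free 3-graph on `n` vertices with few (`o(n^{2s+1})`) *induced* copies of
`K_{1,s,s}`, in particular one without such a copy, has at most `(5/9 + o(1)) C(n, 3)` edges. The same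
holds if there are few (`o(n^{3s})`) triads: three disjoint `s`-sets `X`, `Y`, `Z` such that all triples
with one vertex in each set are edges, and no triple which meets exactly the two sets `X`, `Y`, or
exactly the two sets `X`, `Z`, is an edge.

The bound `5/9` is attained for every `s ≥ 2`: already the 3-graph `K_{1,2,2}` with five vertices is not
an induced subgraph of Turán's 3-graph. More generally, the 3-graphs of the Fon-der-Flaass construction
contain neither configuration, for every oriented graph without induced oriented 4-cycle in which every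
`s` vertices contain three pairwise non-adjacent ones; these include all constructions of Kostochka for
`s = 7`.

Proof: if the 3-graph is denser than this by `ε`, then a random set of bounded size carries, by
Erdős's box theorem and Ramsey's theorem, a blow-up of a dense pattern. The arcs `i → j` of the
pattern (`P i i j`) form an oriented graph, and if there is no triad, every triple of the pattern is a
triple of the Fon-der-Flaass construction of this oriented graph. The oriented graph may have induced
oriented 4-cycles; but on each of them one of the four triples, which are induced paths, is missing in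
the pattern. So the bound follows from the weighted theorem on oriented graphs with a set of marked
induced paths which meets every induced oriented 4-cycle (`main_marked`).
-/

set_option autoImplicit false

open Finset
open scoped Classical

namespace Pool.Agent.Results.MP_466853_co.InducedTripartite

/-- The 3-graph `G` has no four vertices spanning all four triples. -/
def K43Free {n : ℕ} (G : Finset (Finset (Fin n))) : Prop :=
  ∀ S : Finset (Fin n), S.card = 4 → ∃ e ⊆ S, e.card = 3 ∧ e ∉ G

/-- The class of a vertex of the complete 3-partite 3-graph `K_{1,s,s}` with vertex set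
`Option (Fin s ⊕ Fin s)`: the classes consist of `none`, of the `s` vertices `some (Sum.inl _)` and of the
`s` vertices `some (Sum.inr _)`. -/
def part {s : ℕ} : Option (Fin s ⊕ Fin s) → Fin 3
  | none => 0
  | some (Sum.inl _) => 1
  | some (Sum.inr _) => 2

/-- The map `f` is an induced copy of `K_{1,s,s}` in the 3-graph `G`: it is injective, and the images of
three vertices form an edge of `G` if and only if the three vertices are in three different classes. -/
def IsCopy (s : ℕ) {n : ℕ} (G : Finset (Finset (Fin n))) (f : Option (Fin s ⊕ Fin s) → Fin n) :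
    Prop :=
  Function.Injective f ∧ ∀ a b c, a ≠ b → a ≠ c → b ≠ c →
    (({f a, f b, f c} : Finset (Fin n)) ∈ G ↔ part a ≠ part b ∧ part a ≠ part c ∧ part b ≠ part c)

/-- The number of (labelled) induced copies of `K_{1,s,s}` in `G`. -/
noncomputable def copies (s : ℕ) {n : ℕ} (G : Finset (Finset (Fin n))) : ℕ :=
  ((univ : Finset (Option (Fin s ⊕ Fin s) → Fin n)).filter (IsCopy s G)).card

/-- Two families `x`, `y` of `s` vertices are apart: no triple with two vertices of one and one of the
other is an edge of `G`. -/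
def Apart {n s : ℕ} (G : Finset (Finset (Fin n))) (x y : Fin s → Fin n) : Prop :=
  (∀ p q r, p ≠ q → ({x p, x q, y r} : Finset (Fin n)) ∉ G) ∧
    ∀ p q r, q ≠ r → ({x p, y q, y r} : Finset (Fin n)) ∉ G

/-- A triad: three disjoint families `f (0, ·)`, `f (1, ·)`, `f (2, ·)` of `s` vertices, the family 0
apart from the two others, such that all triples with one vertex in each family are edges. -/
def IsTriad (s : ℕ) {n : ℕ} (G : Finset (Finset (Fin n))) (f : Fin 3 × Fin s → Fin n) : Prop :=
  Function.Injective f ∧ Apart G (fun p => f (0, p)) (fun p => f (1, p)) ∧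
    Apart G (fun p => f (0, p)) (fun p => f (2, p)) ∧
    ∀ p q r, ({f (0, p), f (1, q), f (2, r)} : Finset (Fin n)) ∈ G

/-- The number of triads in `G`. -/
noncomputable def triads (s : ℕ) {n : ℕ} (G : Finset (Finset (Fin n))) : ℕ :=
  ((univ : Finset (Fin 3 × Fin s → Fin n)).filter (IsTriad s G)).card

/-- `R` is (the arc relation of) an oriented graph on `n` vertices: no loops, and at most one arc
between two vertices. -/
def IsOriented {n : ℕ} (R : Fin n → Fin n → Prop) : Prop := ∀ x y, R x y → ¬ R y x

/-- `R` has no induced oriented 4-cycle `a → b → c → d → a` (`a,c` and `b,d` not joined by an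
arc; in an oriented graph the four vertices are automatically distinct). -/
def NoInducedC4 {n : ℕ} (R : Fin n → Fin n → Prop) : Prop :=
  ¬ ∃ a b c d : Fin n, R a b ∧ R b c ∧ R c d ∧ R d a ∧ ¬ R a c ∧ ¬ R c a ∧ ¬ R b d ∧ ¬ R d b

/-- Every set of `s` vertices contains three pairwise non-adjacent ones. -/
def ManyIndependent {n : ℕ} (s : ℕ) (R : Fin n → Fin n → Prop) : Prop :=
  ∀ S : Finset (Fin n), S.card = s → ∃ T ⊆ S, T.card = 3 ∧ ∀ x ∈ T, ∀ y ∈ T, ¬ R x y

/-- The 3-graph of the Fon-der-Flaass construction: all triples in which every vertex is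
joined by an arc to at least one of the other two, and no vertex sends arcs to both others. -/
noncomputable def construction {n : ℕ} (R : Fin n → Fin n → Prop) : Finset (Finset (Fin n)) :=
  (Finset.univ.powersetCard 3).filter fun e : Finset (Fin n) =>
    ∀ x ∈ e, (∃ y ∈ e, y ≠ x ∧ (R x y ∨ R y x)) ∧ ∃ y ∈ e, y ≠ x ∧ ¬ R x y

open Pool.Agent.N442.LP Pool.Agent.N442.K4 Pool.Agent.Helper50.FdT

theorem kfree {n : ℕ} {G : Finset (Finset (Fin n))} (h : K43Free G) : KFree 4 G := by
  intro S hS
  obtain ⟨e, he, he3, heG⟩ := h S hS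
  exact ⟨e, mem_powersetCard.mpr ⟨he, he3⟩, heG⟩

theorem part_eq {s : ℕ} (o : Option (Fin s ⊕ Fin s)) : Pool.Agent.Helper50.FdT.part o = part o := by
  rcases o with _ | p | p <;> rfl

theorem isInd_iff {s n : ℕ} (G : Finset (Finset (Fin n))) (f : Option (Fin s ⊕ Fin s) → Fin n) :
    IsInd s G f ↔ IsCopy s G f := by
  unfold IsInd IsCopy
  simp only [part_eq]

theorem num_copies (s : ℕ) {n : ℕ} (G : Finset (Finset (Fin n))) :
    num (IsInd s G) = copies s G := by
  unfold num copies
  refine congrArg card ?_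
  ext f
  simp only [mem_filter, mem_univ, true_and]
  exact isInd_iff G f

theorem num_triads (s : ℕ) {n : ℕ} (G : Finset (Finset (Fin n))) :
    num (Bad3 s G) = triads s G := by
  unfold num triads
  refine congrArg card ?_
  ext f
  simp only [mem_filter, mem_univ, true_and]
  exact Iff.rfl

/-- the upper bound -/
theorem upper (s : ℕ) (ε : ℝ) (hε : 0 < ε) : ∃ δ : ℝ, 0 < δ ∧ ∃ N : ℕ, ∀ n : ℕ, N ≤ n →
    ∀ G : Finset (Finset (Fin n)), (∀ e ∈ G, e.card = 3) → K43Free G →
      ((copies s G : ℝ) ≤ δ * (n : ℝ) ^ (2 * s + 1) ∨ (triads s G : ℝ) ≤ δ * (n : ℝ) ^ (3 * s)) →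
      (G.card : ℝ) ≤ (5 / 9 + ε) * (n.choose 3 : ℝ) := by
  obtain ⟨δ, hδ, N, hN⟩ := thmT s hε
  obtain ⟨δ', hδ', N', hN'⟩ := thmB3 s hε
  refine ⟨min δ δ', lt_min hδ hδ', max N N' + 1, fun n hn G h3 hK h => ?_⟩
  have hNn : N ≤ n := by omega
  have hNn' : N' ≤ n := by omega
  have hn0 : (0 : ℝ) < n := by exact_mod_cast (show 0 < n by omega)
  rw [← FonDerFlaassBlowUps.rho3]
  rcases h with h | h
  · refine hN n hNn G h3 (kfree hK) ?_
    have hc : Fintype.card (Option (Fin s ⊕ Fin s)) = 2 * s + 1 := by simp; ring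
    unfold dn
    rw [hc, div_le_iff₀ (by positivity), num_copies]
    exact h.trans (mul_le_mul_of_nonneg_right (min_le_left _ _) (by positivity))
  · refine hN' n hNn' G h3 (kfree hK) ?_
    unfold dn
    rw [Fintype.card_prod, Fintype.card_fin, Fintype.card_fin, div_le_iff₀ (by positivity),
      num_triads]
    exact h.trans (mul_le_mul_of_nonneg_right (min_le_right _ _) (by positivity))

theorem two_of (p : Fin 3 → Prop) :
    (∃ a a', a ≠ a' ∧ p a ∧ p a') ∨ ∃ a a', a ≠ a' ∧ ¬ p a ∧ ¬ p a' := by
  by_cases h0 : p 0 <;> by_cases h1 : p 1 <;> by_cases h2 : p 2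
  · exact Or.inl ⟨0, 1, by decide, h0, h1⟩
  · exact Or.inl ⟨0, 1, by decide, h0, h1⟩
  · exact Or.inl ⟨0, 2, by decide, h0, h2⟩
  · exact Or.inr ⟨1, 2, by decide, h1, h2⟩
  · exact Or.inl ⟨1, 2, by decide, h1, h2⟩
  · exact Or.inr ⟨0, 2, by decide, h0, h2⟩
  · exact Or.inr ⟨0, 1, by decide, h0, h1⟩
  · exact Or.inr ⟨0, 1, by decide, h0, h1⟩

theorem noCopy {n s : ℕ} {R : Fin n → Fin n → Prop} (hO : IsOriented R) (hM : ManyIndependent s R)
    (f : Option (Fin s ⊕ Fin s) → Fin n) : ¬ IsCopy s (construction R) f := by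
  rintro ⟨hf, hc⟩
  obtain ⟨g, hg, hgR⟩ := FonDerFlaassBlowUps.three_of (R := R) hM (fun p => f (some (Sum.inl p)))
    (fun p q h => by simpa using hf h)
  obtain ⟨h, hh, hhR⟩ := FonDerFlaassBlowUps.three_of (R := R) hM (fun p => f (some (Sum.inr p)))
    (fun p q h => by simpa using hf h)
  set v := f none with hv
  set X : Fin 3 → Fin n := fun a => f (some (Sum.inl (g a))) with hX
  set Y : Fin 3 → Fin n := fun a => f (some (Sum.inr (h a))) with hY
  have nvX : ∀ a, v ≠ X a := fun a e => by simpa using hf e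
  have nvY : ∀ a, v ≠ Y a := fun a e => by simpa using hf e
  have nXY : ∀ a b, X a ≠ Y b := fun a b e => by simpa using hf e
  have nXX : ∀ a b, a ≠ b → X a ≠ X b := fun a b hab e => hab (hg (by simpa using hf e))
  have nYY : ∀ a b, a ≠ b → Y a ≠ Y b := fun a b hab e => hab (hh (by simpa using hf e))
  have e1 : ∀ a b, ({v, X a, Y b} : Finset (Fin n)) ∈ construction R := fun a b =>
    (hc none (some (Sum.inl (g a))) (some (Sum.inr (h b))) (by simp) (by simp) (by simp)).mpr
      (by simp [part])
  have e2 : ∀ a a', a ≠ a' → ({v, X a, X a'} : Finset (Fin n)) ∉ construction R := fun a a' haa hm => by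
    have := (hc none (some (Sum.inl (g a))) (some (Sum.inl (g a'))) (by simp) (by simp)
      (by simpa using fun e => haa (hg e))).mp hm
    simp [part] at this
  have e3 : ∀ a a', a ≠ a' → ({v, Y a, Y a'} : Finset (Fin n)) ∉ construction R := fun a a' haa hm => by
    have := (hc none (some (Sum.inr (h a))) (some (Sum.inr (h a'))) (by simp) (by simp)
      (by simpa using fun e => haa (hh e))).mp hm
    simp [part] at this
  have e4 : ∀ a a' b, a ≠ a' → ({X a, X a', Y b} : Finset (Fin n)) ∉ construction R :=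
    fun a a' b haa hm => by
    have := (hc (some (Sum.inl (g a))) (some (Sum.inl (g a'))) (some (Sum.inr (h b)))
      (by simpa using fun e => haa (hg e)) (by simp) (by simp)).mp hm
    simp [part] at this
  have e5 : ∀ a b b', b ≠ b' → ({X a, Y b, Y b'} : Finset (Fin n)) ∉ construction R :=
    fun a b b' hbb hm => by
    have := (hc (some (Sum.inl (g a))) (some (Sum.inr (h b))) (some (Sum.inr (h b')))
      (by simp) (by simp) (by simpa using fun e => hbb (hh e))).mp hm
    simp [part] at this
  -- no two vertices of one class are adjacent to two of the other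
  have key : ∀ a a' b b', a ≠ a' → b ≠ b' → (R (X a) (Y b) ∨ R (Y b) (X a)) →
      (R (X a) (Y b') ∨ R (Y b') (X a)) → (R (X a') (Y b) ∨ R (Y b) (X a')) →
      (R (X a') (Y b') ∨ R (Y b') (X a')) → False := by
    intro a a' b b' haa hbb c1 c2 c3 c4
    exact FonDerFlaassBlowUps.not_two hO (G := construction R) rfl (nXX a a' haa) (nYY b b' hbb)
      (nXY a b) (nXY a b') (nXY a' b) (nXY a' b') (hgR a a') (hgR a' a) (hhR b b') (hhR b' b)
      (e5 a b b' hbb) (e5 a' b b' hbb) (e4 a a' b haa) c1 c2 c3 c4
  have mem : ∀ a b, _ := fun a b =>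
    (FonDerFlaassBlowUps.mem_con (R := R) (nvX a) (nvY b) (nXY a b)).mp (e1 a b)
  rcases two_of (fun a => R v (X a) ∨ R (X a) v) with ⟨a, a', haa, h1, h2⟩ | ⟨a, a', haa, h1, h2⟩
  · rcases two_of (fun a => R v (Y a) ∨ R (Y a) v) with ⟨b, b', hbb, h3, h4⟩ | ⟨b, b', hbb, h3, h4⟩
    · have o1 := FonDerFlaassBlowUps.out_of (G := construction R) rfl (nvX a) (nvX a')
        (nXX a a' haa) (hgR a a') (hgR a' a) (e2 a a' haa) h1 h2
      have o2 := FonDerFlaassBlowUps.out_of (G := construction R) rfl (nvY b) (nvY b')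
        (nYY b b' hbb) (hhR b b') (hhR b' b) (e3 b b' hbb) h3 h4
      rcases (mem a b).1.2 with h | h
      · exact h o1.1
      · exact h o2.1
    · have adj : ∀ a, (R (X a) (Y b) ∨ R (Y b) (X a)) ∧ (R (X a) (Y b') ∨ R (Y b') (X a)) := by
        intro a
        constructor
        · rcases (mem a b).2.2.1 with h | h
          · exact absurd h.symm h3
          · exact h.symm
        · rcases (mem a b').2.2.1 with h | h
          · exact absurd h.symm h4
          · exact h.symm
      exact key a a' b b' haa hbb (adj a).1 (adj a).2 (adj a').1 (adj a').2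
  · have adj : ∀ b, (R (X a) (Y b) ∨ R (Y b) (X a)) ∧ (R (X a') (Y b) ∨ R (Y b) (X a')) := by
      intro b
      constructor
      · rcases (mem a b).2.1.1 with h | h
        · exact absurd h.symm h1
        · exact h
      · rcases (mem a' b).2.1.1 with h | h
        · exact absurd h.symm h2
        · exact h
    exact key a a' 0 1 haa (by decide) (adj 0).1 (adj 1).1 (adj 0).2 (adj 1).2

/-- Turán's 3-graph has no induced copy of `K_{1,s,s}` for `s ≥ 2` -/
theorem turan_noCopy {n s : ℕ} (hs : 2 ≤ s) (f : Option (Fin s ⊕ Fin s) → Fin n) :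
    ¬ IsCopy s (construction (MP_f1799f_co.FonDerFlaass.turanR n)) f := by
  rintro ⟨hf, hc⟩
  have bridge : ∀ a b c : Fin n, a ≠ b → a ≠ c → b ≠ c →
      (({a, b, c} : Finset (Fin n)) ∈ construction (MP_f1799f_co.FonDerFlaass.turanR n) ↔
        et (res a) (res b) (res c)) := by
    intro a b c hab hac hbc
    have h := FonDerFlaassBlowUps.mem_con (R := MP_f1799f_co.FonDerFlaass.turanR n) hab hac hbc
    refine h.trans ?_
    unfold et
    simp only [rr_res]
    exact Iff.rfl
  set p : Fin s := ⟨0, by omega⟩ with hp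
  set q : Fin s := ⟨1, by omega⟩ with hq
  have hpq : p ≠ q := by
    intro h
    have := congrArg Fin.val h
    simp [hp, hq] at this
  have key : ∀ a b c : Option (Fin s ⊕ Fin s), a ≠ b → a ≠ c → b ≠ c →
      (et (res (f a)) (res (f b)) (res (f c)) ↔
        part a ≠ part b ∧ part a ≠ part c ∧ part b ≠ part c) := fun a b c h1 h2 h3 =>
    (bridge _ _ _ (fun e => h1 (hf e)) (fun e => h2 (hf e)) (fun e => h3 (hf e))).symm.trans
      (hc a b c h1 h2 h3)
  refine et_no (res (f none)) (res (f (some (Sum.inl p)))) (res (f (some (Sum.inl q))))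
    (res (f (some (Sum.inr p)))) (res (f (some (Sum.inr q)))) ⟨?_, ?_, ?_, ?_, ?_, ?_, ?_, ?_, ?_, ?_⟩
  · exact (key _ _ _ (by simp) (by simp) (by simp)).mpr (by simp [part])
  · exact (key _ _ _ (by simp) (by simp) (by simp)).mpr (by simp [part])
  · exact (key _ _ _ (by simp) (by simp) (by simp)).mpr (by simp [part])
  · exact (key _ _ _ (by simp) (by simp) (by simp)).mpr (by simp [part])
  · exact fun h => by simpa [part] using (key _ _ _ (by simp) (by simp) (by simpa using hpq)).mp h
  · exact fun h => by simpa [part] using (key _ _ _ (by simp) (by simp) (by simpa using hpq)).mp h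
  · exact fun h => by simpa [part] using (key _ _ _ (by simpa using hpq) (by simp) (by simp)).mp h
  · exact fun h => by simpa [part] using (key _ _ _ (by simpa using hpq) (by simp) (by simp)).mp h
  · exact fun h => by simpa [part] using (key _ _ _ (by simp) (by simp) (by simpa using hpq)).mp h
  · exact fun h => by simpa [part] using (key _ _ _ (by simp) (by simp) (by simpa using hpq)).mp h

/-- **Turán's `(3,4)`-conjecture for 3-graphs with few induced copies of `K_{1,s,s}^{(3)}`.**
(1) For all `s` and `ε > 0` there are `δ > 0` and `N` such that every `K_4^3`-free 3-graph `G` on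
`n ≥ N` vertices with at most `δ n^{2s+1}` induced copies of `K_{1,s,s}`, or with at most `δ n^{3s}`
triads, has at most `(5/9 + ε) C(n, 3)` edges. (2) In particular this holds if `G` has no induced copy
of `K_{1,s,s}`. (3) The bound is attained for every `s ≥ 2`, by 3-graphs without induced copies of
`K_{1,s,s}`. (4) The 3-graph of the Fon-der-Flaass construction, for an oriented graph without induced
oriented 4-cycle, contains neither configuration if every `s` vertices of the oriented graph contain
three pairwise non-adjacent ones. -/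
theorem result :
    (∀ (s : ℕ) (ε : ℝ), 0 < ε → ∃ δ : ℝ, 0 < δ ∧ ∃ N : ℕ, ∀ n : ℕ, N ≤ n →
      ∀ G : Finset (Finset (Fin n)), (∀ e ∈ G, e.card = 3) → K43Free G →
        ((copies s G : ℝ) ≤ δ * (n : ℝ) ^ (2 * s + 1) ∨
          (triads s G : ℝ) ≤ δ * (n : ℝ) ^ (3 * s)) →
        (G.card : ℝ) ≤ (5 / 9 + ε) * (n.choose 3 : ℝ)) ∧
    (∀ (s : ℕ) (ε : ℝ), 0 < ε → ∃ N : ℕ, ∀ n : ℕ, N ≤ n →
      ∀ G : Finset (Finset (Fin n)), (∀ e ∈ G, e.card = 3) → K43Free G →
        (∀ f : Option (Fin s ⊕ Fin s) → Fin n, ¬ IsCopy s G f) →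
        (G.card : ℝ) ≤ (5 / 9 + ε) * (n.choose 3 : ℝ)) ∧
    (∀ ε : ℝ, 0 < ε → ∃ N : ℕ, ∀ n : ℕ, N ≤ n → ∃ G : Finset (Finset (Fin n)),
      (∀ e ∈ G, e.card = 3) ∧ K43Free G ∧
        (∀ (s : ℕ), 2 ≤ s → ∀ f : Option (Fin s ⊕ Fin s) → Fin n, ¬ IsCopy s G f) ∧
        (5 / 9 - ε) * (n.choose 3 : ℝ) ≤ (G.card : ℝ)) ∧
    (∀ (n s : ℕ) (R : Fin n → Fin n → Prop), IsOriented R → NoInducedC4 R → ManyIndependent s R →
      K43Free (construction R) ∧ copies s (construction R) = 0 ∧
        triads s (construction R) = 0) := by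
  have hz : ∀ {n s : ℕ} {G : Finset (Finset (Fin n))},
      (∀ f : Option (Fin s ⊕ Fin s) → Fin n, ¬ IsCopy s G f) → copies s G = 0 := by
    intro n s G h
    unfold copies
    rw [card_eq_zero, filter_eq_empty_iff]
    exact fun f _ => h f
  refine ⟨upper, fun s ε hε => ?_, fun ε hε => ?_, fun n s R hO hC hM => ?_⟩
  · obtain ⟨δ, hδ, N, hN⟩ := upper s ε hε
    refine ⟨N, fun n hn G h3 hK h => hN n hn G h3 hK (Or.inl ?_)⟩
    rw [hz h, Nat.cast_zero]
    positivity
  · obtain ⟨N, hN⟩ := exists_nat_gt (80 / ε)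
    refine ⟨max N 8, fun n hn => ?_⟩
    have hn1 : (N : ℝ) ≤ n := by exact_mod_cast (le_max_left N 8).trans hn
    have hn8 : (8 : ℝ) ≤ n := by exact_mod_cast (le_max_right N 8).trans hn
    have he : 80 ≤ ε * n := by
      have : 80 / ε < n := lt_of_lt_of_le hN hn1
      rw [div_lt_iff₀ hε] at this
      linarith
    set R := MP_f1799f_co.FonDerFlaass.turanR n with hR
    refine ⟨construction R, fun e he => (mem_powersetCard.mp (mem_filter.mp he).1).2,
      (FonDerFlaassBlowUps.result.2.1 n 7 R (MP_f1799f_co.FonDerFlaass.turan_oriented n)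
        (MP_f1799f_co.FonDerFlaass.turan_noC4 n) (FonDerFlaassBlowUps.turan_many n)).1,
      fun s hs f => turan_noCopy hs f, ?_⟩
    have h0 := MP_f1799f_co.FonDerFlaass.turan_card n
    have hcon : construction R = MP_f1799f_co.FonDerFlaass.construction R :=
      FonDerFlaassBlowUps.con_eq R
    rw [hcon, MP_f1799f_co.FonDerFlaass.card_construction,
      MP_f1799f_co.FonDerFlaass.choose_three]
    have h1 : (n : ℝ) ^ 3 / 6 - (n : ℝ) ^ 2 / 2 ≥ (n : ℝ) ^ 3 / 12 := by
      nlinarith [sq_nonneg (n : ℝ)]
    have h2 : 80 * ((n : ℝ) ^ 2 / 12) ≤ ε * n * ((n : ℝ) ^ 2 / 12) :=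
      mul_le_mul_of_nonneg_right he (by positivity)
    have h3 : 0 ≤ ε * ((n : ℝ) / 3) := by positivity
    have h4 : ε * ((n : ℝ) ^ 3 / 12) ≤ ε * ((n : ℝ) ^ 3 / 6 - (n : ℝ) ^ 2 / 2) :=
      mul_le_mul_of_nonneg_left h1 hε.le
    nlinarith
  · obtain ⟨h1, h2, -⟩ := FonDerFlaassBlowUps.result.2.1 n s R hO hC hM
    exact ⟨h1, hz fun f => noCopy hO hM f, h2⟩

end Pool.Agent.Results.MP_466853_co.InducedTripartite
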