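import Pool.Agent.Helper44.LC.Sharp
import Pool.Agent.Results.MP_f1799f_co.FonDerFlaass

/-!
# Turán's `(3,4)`-problem and cliques of the link graphs

Let `H` be any `K_4^3`-free 3-graph on `n` vertices, and choose for every vertex `v` a family `C v`
of at most `m = o(n^{1/4})` cliques of the link graph of `v` (sets `A` such that `{v, x, y}` is an
edge for all `x ≠ y` in `A`). An edge `e` is covered at its vertex `v` if the two other vertices lie
in a common member of `C v`; two vertices are joined if one of them lies in a chosen link clique of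
the other. It is shown that

* the edges in which every vertex is joined to another one are at most `(5/9 + o(1)) n³ / 6`. So
  Turán's bound holds for all `K_4^3`-free 3-graphs with such link cliques for which almost all edges
  contain two joined pairs; Turán's construction is one of them, with `m = 1` (the link of a vertex of
  `V_{i+1}` contains the clique `V_i`), and `5/9` is attained;
* the covered edges are at most `(2 √3 - 3 + o(1)) n³ / 6`, where `2 √3 - 3 = 0.4641...`, and this is
  sharp.

An application of the second part (`colourings` below, not part of `result`) determines the maximum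
number of identified triples for colourings: if every vertex
`v` colours the other vertices (with any number of colours), and among any four vertices there is
a triple in which no vertex sees the two others in the same colour, then there are at most
`(2 √3 - 3 + o(1)) n³ / 6` triples in which some vertex sees the two others in the same colour. This
is sharp even for colourings of the edges of the complete graph: if every `K_4` contains a rainbow
triangle then the density of the rainbow triangles is at least `4 - 2 √3 - o(1)`, which is more than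
Turán's `4/9`.

Outline. Let `v → x` if `x` lies in a chosen link clique of `v`. If `u → x` and `v → x` by the cliques
`A` and `B` then `u v x` is an edge for at most one `x` in `A ∩ B`, since two of them would give a
`K_4^3` with `u` and `v`. So almost no edge contains a vertex which receives two arcs, almost no edge
is covered at two vertices, and by a second moment almost no pair is joined by two arcs. So the
covered edges are, up to `o(n³)`, induced out-stars of an oriented graph, whose density is at most
`2 √3 - 3` (weighted symmetrisation: moving weight between two non-adjacent vertices is a convex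
function, and in a tournament the vertex of the largest weight can be split off), and the edges in
which every vertex is joined to another one form, up to `o(n³)`, a `K_4^3`-free sub-3-graph of the
Fon-der-Flaass 3-graph of the reversed oriented graph. For these the bound `5/9` is a theorem of
helper35 and helper50 (`Pool.Agent.Helper35.FdM.main_marked`), which extends the theorem on the
Fon-der-Flaass construction of the starting library.
-/

set_option autoImplicit false
open Finset
open scoped Classical

namespace Pool.Agent.Results.MP_466853_co.LinkCliques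

/-- The 3-graph `H` has no four vertices spanning all four triples. -/
def K43Free {n : ℕ} (H : Finset (Finset (Fin n))) : Prop :=
  ∀ S : Finset (Fin n), S.card = 4 → ∃ e ⊆ S, e.card = 3 ∧ e ∉ H

/-- `H` is a `K_4^3`-free 3-graph on `n` vertices, and `C v` is for every vertex `v` a family of at
most `m` cliques of the link graph of `v`. -/
structure Chosen {n : ℕ} (H : Finset (Finset (Fin n))) (C : Fin n → Finset (Finset (Fin n)))
    (m : ℕ) : Prop where
  three : ∀ e ∈ H, e.card = 3
  free : K43Free H
  clique : ∀ v, ∀ A ∈ C v, ∀ x ∈ A, ∀ y ∈ A, x ≠ y → ({v, x, y} : Finset (Fin n)) ∈ H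
  few : ∀ v, (C v).card ≤ m

/-- The vertices of `e` other than `v` lie in a common chosen link clique of `v`. -/
def CoveredAt {n : ℕ} (C : Fin n → Finset (Finset (Fin n))) (v : Fin n) (e : Finset (Fin n)) :
    Prop := ∃ A ∈ C v, e.erase v ⊆ A

/-- `x ≠ y`, and one of them lies in a chosen link clique of the other. -/
def Joined {n : ℕ} (C : Fin n → Finset (Finset (Fin n))) (x y : Fin n) : Prop :=
  x ≠ y ∧ ((∃ A ∈ C x, y ∈ A) ∨ ∃ A ∈ C y, x ∈ A)

/-- The edges which are covered at one of their vertices. -/
noncomputable def covered {n : ℕ} (H : Finset (Finset (Fin n)))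
    (C : Fin n → Finset (Finset (Fin n))) : Finset (Finset (Fin n)) :=
  H.filter fun e => ∃ v ∈ e, CoveredAt C v e

/-- The edges in which every vertex is joined to another one. -/
noncomputable def joinedEdges {n : ℕ} (H : Finset (Finset (Fin n)))
    (C : Fin n → Finset (Finset (Fin n))) : Finset (Finset (Fin n)) :=
  H.filter fun e => ∀ x ∈ e, ∃ y ∈ e, Joined C x y

/-- The triples in which some vertex `v` sees the two others in the same colour; `col v x` is the
colour in which `v` sees `x`. If `col` is symmetric, that is an edge colouring of the complete graph,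
these are the triangles which are not rainbow. -/
noncomputable def identified {n : ℕ} {α : Type} (col : Fin n → Fin n → α) :
    Finset (Finset (Fin n)) :=
  (univ.powersetCard 3).filter fun e => ∃ v ∈ e, ∃ x ∈ e, ∃ y ∈ e,
    x ≠ y ∧ x ≠ v ∧ y ≠ v ∧ col v x = col v y

open Pool.Agent.Helper44.LC

theorem setup_iff {n : ℕ} {H : Finset (Finset (Fin n))} {C : Fin n → Finset (Finset (Fin n))}
    {m : ℕ} : Chosen H C m ↔ Setup H C m :=
  ⟨fun h => ⟨h.three, h.free, h.clique, h.few⟩, fun h => ⟨h.h3, h.hK, h.hC, h.hm⟩⟩

theorem identified_eq {n : ℕ} {α : Type} (col : Fin n → Fin n → α) :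
    identified col = Seen col := by
  ext e
  rw [mem_Seen]
  unfold identified
  rw [Finset.mem_filter, Finset.mem_powersetCard]
  constructor
  · rintro ⟨⟨-, h⟩, h'⟩; exact ⟨h, h'⟩
  · rintro ⟨h, h'⟩; exact ⟨⟨Finset.subset_univ _, h⟩, h'⟩

theorem upper (ε : ℝ) (hε : 0 < ε) : ∃ δ : ℝ, 0 < δ ∧ ∀ (n m : ℕ) (H : Finset (Finset (Fin n)))
    (C : Fin n → Finset (Finset (Fin n))), Chosen H C m → (m : ℝ) ^ 4 ≤ δ * n →
      ((joinedEdges H C).card : ℝ) ≤ (5 / 9 + ε) * ((n : ℝ) ^ 3 / 6) ∧
      ((covered H C).card : ℝ) ≤ (2 * Real.sqrt 3 - 3 + ε) * ((n : ℝ) ^ 3 / 6) := by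
  obtain ⟨δ, hδ, h⟩ := upperA ε hε
  refine ⟨δ, hδ, fun n m H C hC hm => ?_⟩
  have h0 := h (Fin n) H C m (setup_iff.mp hC) (by rw [Fintype.card_fin]; exact hm)
  rw [Fintype.card_fin] at h0
  refine ⟨?_, ?_⟩
  · refine le_trans ?_ h0.2.1
    have hsub : joinedEdges H C ⊆ H.filter (Jn C) := by
      intro e he
      unfold joinedEdges at he
      rw [Finset.mem_filter] at he ⊢
      refine ⟨he.1, fun x hx => ?_⟩
      obtain ⟨y, hy, hxy, hj⟩ := he.2 x hx
      refine ⟨y, hy, hxy.symm, ?_⟩
      rcases hj with hj | hj
      · exact Or.inl ⟨hxy.symm, hj⟩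
      · exact Or.inr ⟨hxy, hj⟩
    exact_mod_cast Finset.card_le_card hsub
  · refine le_trans ?_ h0.1
    have hsub : covered H C ⊆ H.filter (Cov C) := by
      intro e he
      unfold covered at he
      rw [Finset.mem_filter] at he ⊢
      exact he
    exact_mod_cast Finset.card_le_card hsub

/-- Turán's construction has one link clique for every vertex, such that all edges are joined. -/
theorem turan_chosen (ε : ℝ) (hε : 0 < ε) : ∃ N : ℕ, ∀ n : ℕ, N ≤ n →
    ∃ (H : Finset (Finset (Fin n))) (C : Fin n → Finset (Finset (Fin n))),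
      Chosen H C 1 ∧ joinedEdges H C = H ∧ (5 / 9 - ε) * ((n : ℝ) ^ 3 / 6) ≤ (H.card : ℝ) := by
  obtain ⟨N, hN⟩ := exists_nat_gt (80 / ε)
  refine ⟨max N 8, fun n hn => ⟨MP_f1799f_co.FonDerFlaass.construction
    (MP_f1799f_co.FonDerFlaass.turanR n), fun z => {univ.filter fun x : Fin n =>
      MP_f1799f_co.FonDerFlaass.turanR n x z}, ⟨?_, ?_, ?_, ?_⟩, ?_, ?_⟩⟩
  · intro e he
    unfold MP_f1799f_co.FonDerFlaass.construction at he
    exact (Finset.mem_powersetCard.mp (Finset.mem_sdiff.mp he).1).2
  · exact MP_f1799f_co.FonDerFlaass.k43free _ (MP_f1799f_co.FonDerFlaass.turan_oriented n)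
      (MP_f1799f_co.FonDerFlaass.turan_noC4 n)
  · intro z A hA x hx y hy hxy
    rw [Finset.mem_singleton] at hA
    subst hA
    have hx' : MP_f1799f_co.FonDerFlaass.turanR n x z := (Finset.mem_filter.mp hx).2
    have hy' : MP_f1799f_co.FonDerFlaass.turanR n y z := (Finset.mem_filter.mp hy).2
    clear hx hy
    unfold MP_f1799f_co.FonDerFlaass.turanR at hx' hy'
    have hzx : z ≠ x := by rintro rfl; omega
    have hzy : z ≠ y := by rintro rfl; omega
    unfold MP_f1799f_co.FonDerFlaass.construction MP_f1799f_co.FonDerFlaass.fdf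
    rw [Finset.mem_sdiff, Finset.mem_filter, Finset.mem_powersetCard]
    refine ⟨⟨Finset.subset_univ _, card3.mpr ⟨hzx, hzy, hxy⟩⟩, ?_⟩
    rintro ⟨-, v, hv, hvv⟩
    unfold MP_f1799f_co.FonDerFlaass.turanR at hvv
    simp only [mem_insert, mem_singleton] at hv
    rcases hv with rfl | rfl | rfl
    · rcases hvv with h | h
      · exact (h x (by simp) hzx.symm).2 hx'
      · have := h y (by simp) hzy.symm; have := h x (by simp) hzx.symm; omega
    · rcases hvv with h | h
      · exact (h z (by simp) hzx).1 hx'
      · have := h y (by simp) hxy.symm; omega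
    · rcases hvv with h | h
      · exact (h z (by simp) hzy).1 hy'
      · have := h x (by simp) hxy; omega
  · intro v
    rw [Finset.card_singleton]
  · unfold joinedEdges
    rw [Finset.filter_eq_self]
    intro e he x hx
    unfold MP_f1799f_co.FonDerFlaass.construction MP_f1799f_co.FonDerFlaass.fdf at he
    rw [Finset.mem_sdiff, Finset.mem_filter] at he
    obtain ⟨h1, h2⟩ := he
    have h3 : ∃ y ∈ e, y ≠ x ∧ (MP_f1799f_co.FonDerFlaass.turanR n x y ∨
        MP_f1799f_co.FonDerFlaass.turanR n y x) := by
      by_contra hcon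
      push Not at hcon
      exact h2 ⟨h1, x, hx, Or.inl hcon⟩
    obtain ⟨y, hy, hyx, hR⟩ := h3
    refine ⟨y, hy, hyx.symm, ?_⟩
    rcases hR with hR | hR
    · exact Or.inr ⟨_, Finset.mem_singleton_self _, by
        simp only [mem_filter, mem_univ, true_and]; exact hR⟩
    · exact Or.inl ⟨_, Finset.mem_singleton_self _, by
        simp only [mem_filter, mem_univ, true_and]; exact hR⟩
  · have hn1 : (N : ℝ) ≤ n := by exact_mod_cast (le_max_left N 8).trans hn
    have hn8 : (8 : ℝ) ≤ n := by exact_mod_cast (le_max_right N 8).trans hn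
    have he : 80 ≤ ε * n := by
      have : 80 / ε < n := lt_of_lt_of_le hN hn1
      rw [div_lt_iff₀ hε] at this
      linarith
    have h0 := MP_f1799f_co.FonDerFlaass.turan_card n
    rw [MP_f1799f_co.FonDerFlaass.card_construction, MP_f1799f_co.FonDerFlaass.choose_three]
    have h2 : 80 * ((n : ℝ) ^ 2 / 6) ≤ ε * n * ((n : ℝ) ^ 2 / 6) :=
      mul_le_mul_of_nonneg_right he (by positivity)
    nlinarith

/-- Colourings. For all large `n` and all local colourings `col` (any number of colours) for which the
3-graph of the identified triples is `K_4^3`-free, there are at most `(2 √3 - 3 + ε) n³ / 6` identified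
triples, and this is sharp for edge colourings (symmetric `col`). -/
theorem colourings (ε : ℝ) (hε : 0 < ε) :
    (∃ N : ℕ, ∀ n : ℕ, N ≤ n → ∀ (α : Type) (col : Fin n → Fin n → α),
      K43Free (identified col) →
        ((identified col).card : ℝ) ≤ (2 * Real.sqrt 3 - 3 + ε) * ((n : ℝ) ^ 3 / 6)) ∧
    (∃ N : ℕ, ∀ n : ℕ, N ≤ n → ∃ col : Fin n → Fin n → ℕ × ℕ × ℕ,
      (∀ x y, col x y = col y x) ∧ K43Free (identified col) ∧
        (2 * Real.sqrt 3 - 3 - ε) * ((n : ℝ) ^ 3 / 6) ≤ ((identified col).card : ℝ)) := by
  refine ⟨?_, ?_⟩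
  · obtain ⟨N, h⟩ := upperL ε hε
    refine ⟨N, fun n hn α col hK => ?_⟩
    have h0 := h (Fin n) α col (by rw [Fintype.card_fin]; exact hn)
      (by rw [← identified_eq]; exact hK)
    rw [Fintype.card_fin] at h0
    rw [identified_eq]
    exact h0
  · obtain ⟨m, N, h⟩ := sharp ε hε
    refine ⟨N, fun n hn => ?_⟩
    obtain ⟨col, C, hsym, hS, -, hcard⟩ := h n hn
    refine ⟨col, hsym, ?_, ?_⟩
    · rw [identified_eq]; exact hS.hK
    · rw [identified_eq]; exact hcard

/-- **`K_4^3`-free 3-graphs and link cliques.** Let `ε > 0`.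
(1) There is `δ > 0` such that for all `K_4^3`-free 3-graphs `H` on `n` vertices and all families of
at most `m` link cliques for every vertex, where `m^4 ≤ δ n`: at most `(5/9 + ε) n³ / 6` edges have the
property that each of their vertices is joined to another one, and at most `(2 √3 - 3 + ε) n³ / 6`
edges are covered.
(2) For all large `n` the constant `5/9` is attained up to `ε`, with `m = 1` and such that all edges
have the property in (1).
(3) For some `m` and all large `n` the constant `2 √3 - 3` is attained up to `ε`, such that all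
edges are covered. -/
theorem result (ε : ℝ) (hε : 0 < ε) :
    (∃ δ : ℝ, 0 < δ ∧ ∀ (n m : ℕ) (H : Finset (Finset (Fin n)))
      (C : Fin n → Finset (Finset (Fin n))), Chosen H C m → (m : ℝ) ^ 4 ≤ δ * n →
        ((joinedEdges H C).card : ℝ) ≤ (5 / 9 + ε) * ((n : ℝ) ^ 3 / 6) ∧
        ((covered H C).card : ℝ) ≤ (2 * Real.sqrt 3 - 3 + ε) * ((n : ℝ) ^ 3 / 6)) ∧
    (∃ N : ℕ, ∀ n : ℕ, N ≤ n → ∃ (H : Finset (Finset (Fin n)))
      (C : Fin n → Finset (Finset (Fin n))), Chosen H C 1 ∧ joinedEdges H C = H ∧
        (5 / 9 - ε) * ((n : ℝ) ^ 3 / 6) ≤ (H.card : ℝ)) ∧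
    (∃ m N : ℕ, ∀ n : ℕ, N ≤ n → ∃ (H : Finset (Finset (Fin n)))
      (C : Fin n → Finset (Finset (Fin n))), Chosen H C m ∧ covered H C = H ∧
        (2 * Real.sqrt 3 - 3 - ε) * ((n : ℝ) ^ 3 / 6) ≤ (H.card : ℝ)) := by
  refine ⟨upper ε hε, turan_chosen ε hε, ?_⟩
  obtain ⟨m, N, h⟩ := sharp ε hε
  refine ⟨m, N, fun n hn => ?_⟩
  obtain ⟨col, C, -, hS, hcov, hcard⟩ := h n hn
  refine ⟨Seen col, C, setup_iff.mpr hS, ?_, hcard⟩
  unfold covered
  rw [Finset.filter_eq_self]
  exact hcov

end Pool.Agent.Results.MP_466853_co.LinkCliques
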