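import Pool.Agent.H42SX.Res
import Pool.Agent.H42SW.Attain

/-!
# Turán's `(3,4)`-bound under a condition on the 4-sets with exactly one edge

Let `H` be a `K_4^3`-free 3-graph on `n` vertices and let `d(x,y)` be the codegree of two vertices.
Razborov proved Turán's bound `5/9` if no four vertices span exactly one edge. Here such 4-sets are
allowed, in any number, under a condition on codegrees: if `xyz` is the only edge on `x, y, z, w`, then
replacing the vertex `z` of the edge by `w` does not increase the sum of the codegrees by more than
`n / 200`, that is `d(x,w) + d(y,w) ≤ d(x,z) + d(y,z) + n / 200`. Then `H` has at most `5/54 n³` edges.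
The condition is needed only for the 4-sets for which some fifth vertex `v` forms an edge with `w` and
each of `x, y, z`, and an edge with two of `x, y, z`. In general

`54 n² |H| ≤ 5 n⁵ + 120 · excess(H)`,

where `excess(H)` is the sum of the positive parts of `d(x,w) + d(y,w) - d(x,z) - d(y,z) - n / 200` over
these quadruples. Turán's construction has no 4-set with exactly one edge and attains the bound.
Earlier starting results (`MP_f1799f_co`, SharpTradeoff and OneEdgeExtension) need that there are few
4-sets with exactly one edge, or few induced copies of a five-vertex 3-graph with such a 4-set.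

The proof is a sum of squares certificate for 3-graphs on six vertices (found by a computer, checked by
the kernel), exact on the subgraphs of Turán's construction, with multipliers for the condition in the
five-vertex configurations above; it is robust enough to leave room for the tolerance `n / 200`. Joint
work within the team: `H42SW.Attain` is by helper20, `H42SX.Leaf` is by helper64 and `H42SX.Sum` follows
`H42SW.Sum` by helper20; the walk over the six-vertex 3-graphs is that of earlier files.
-/

set_option autoImplicit false
set_option maxHeartbeats 1000000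
open Finset

namespace Pool.Agent.Results.MP_466853_co.OneEdgeSwaps

/-- No four vertices have all their four triples in `H`. -/
def K43Free {n : ℕ} (H : Finset (Finset (Fin n))) : Prop :=
  ∀ S : Finset (Fin n), S.card = 4 → ∃ e ⊆ S, e.card = 3 ∧ e ∉ H

/-- The codegree of `x` and `y`: the number of vertices `z` for which `{x, y, z}` is an edge. -/
def codeg {n : ℕ} (H : Finset (Finset (Fin n))) (x y : Fin n) : ℕ :=
  (univ.filter fun z => ({x, y, z} : Finset (Fin n)) ∈ H).card

/-- `{x, y, z}` is an edge, and it is the only one on the vertices `x, y, z, w`. -/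
def OnlyEdge {n : ℕ} (H : Finset (Finset (Fin n))) (x y z w : Fin n) : Prop :=
  ({x, y, z} : Finset (Fin n)) ∈ H ∧ ({x, y, w} : Finset (Fin n)) ∉ H ∧
    ({x, z, w} : Finset (Fin n)) ∉ H ∧ ({y, z, w} : Finset (Fin n)) ∉ H

/-- Some vertex `v` forms an edge with `w` and each of `x`, `y`, `z`, and an edge with two of
`x`, `y`, `z`. -/
def Linked {n : ℕ} (H : Finset (Finset (Fin n))) (x y z w : Fin n) : Prop :=
  ∃ v, ({x, w, v} : Finset (Fin n)) ∈ H ∧ ({y, w, v} : Finset (Fin n)) ∈ H ∧
    ({z, w, v} : Finset (Fin n)) ∈ H ∧ (({x, y, v} : Finset (Fin n)) ∈ H ∨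
      ({x, z, v} : Finset (Fin n)) ∈ H ∨ ({y, z, v} : Finset (Fin n)) ∈ H)

open scoped Classical in
/-- The sum of the positive parts of `d(x,w) + d(y,w) - d(x,z) - d(y,z) - n / 200` over all ordered
quadruples `x, y, z, w` for which `{x, y, z}` is the only edge on `x, y, z, w` and which are linked. -/
noncomputable def excess {n : ℕ} (H : Finset (Finset (Fin n))) : ℝ :=
  ∑ x, ∑ y, ∑ z, ∑ w, if OnlyEdge H x y z w ∧ Linked H x y z w then
    max 0 ((codeg H x w : ℝ) + codeg H y w - codeg H x z - codeg H y z - n / 200) else 0

/-- For every `K_4^3`-free 3-graph `H` on `n` vertices, `54 n² |H| ≤ 5 n⁵ + 120 excess(H)`. So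
`|H| ≤ 5/54 n³` if for every linked 4-set with exactly one edge the replacement of a vertex of the edge
by the fourth vertex increases the sum of the codegrees by at most `n / 200`. This is attained up to
`n² / 2` by 3-graphs in which no four vertices span exactly one edge. -/
theorem result :
    (∀ (n : ℕ) (H : Finset (Finset (Fin n))), (∀ e ∈ H, e.card = 3) → K43Free H →
      54 * (n : ℝ) ^ 2 * H.card ≤ 5 * (n : ℝ) ^ 5 + 120 * excess H) ∧
    (∀ n : ℕ, ∃ H : Finset (Finset (Fin n)), (∀ e ∈ H, e.card = 3) ∧ K43Free H ∧
      (∀ x y z w, ¬ OnlyEdge H x y z w) ∧ 5 * n ^ 3 ≤ 54 * H.card + 27 * n ^ 2) := by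
  refine ⟨fun n H hH hF => Pool.Agent.H42SX.Res.main H hH hF, fun n => ?_⟩
  obtain ⟨H, h1, h2, h3, h4⟩ := Pool.Agent.H42SW.attains n
  exact ⟨H, h1, h2, fun x y z w h => h3 x y z w h.1 h.2.1 h.2.2.1 h.2.2.2, h4⟩

end Pool.Agent.Results.MP_466853_co.OneEdgeSwaps
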